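import Pool.Agent.Helper92.MM.Defs
import Pool.Agent.Helper96.AD.A1
import Pool.Agent.Helper96.AD.A6
import Pool.Agent.Helper22.AE.D4
import Pool.Agent.Helper22.AE.D3

/-!
# MM-M1: the majorant

PROOF. `multiscale` (AE.D4) with the constant function `J`, `f k = b k ee (..) ee (dt k c)`, `D = Dc (2^n) M m` (`arc_card`). Each product
is `≤ #fq · Yq` (`cs_prod`). With `T = D^(2J) + ∑ V_s` every term is `≤ 8 (4J)^m (2M) T^(1/(2J))`, and there are `m + 1` terms.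
-/

open MeasureTheory Real Set Filter Topology

set_option autoImplicit false

namespace Pool.Agent.Helper96.MM

open Pool.Agent.Helper22.AE
open Pool.Agent.Helper22.AC (cntc)
open Pool.Agent.Helper92.GC (dt sqa)
open Pool.Agent.Helper60.AD Pool.Agent.Helper96.AD Pool.Agent.Helper92.MM

theorem Yq_nonneg {J : ℕ} (h : ℝ → ℝ) (A : Fin J → Finset (ℤ × ℤ)) (b : Fin J → ℤ × ℤ → ℂ) (R α : ℝ) : 0 ≤ Yq h A b R α :=
  Finset.sum_nonneg (fun _ _ => sq_nonneg _)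

theorem Vs_nonneg (J M s : ℕ) (h : ℝ → ℝ) (n : ℕ) (b : ℤ × ℤ → ℂ) (R α : ℝ) : 0 ≤ Vs J M s h n b R α :=
  Finset.sum_nonneg (fun _ _ => Finset.sum_nonneg (fun _ _ => mul_nonneg (Nat.cast_nonneg _) (Yq_nonneg _ _ _ _ _)))

theorem Dc_nonneg {x M : ℝ} (hx : 0 ≤ x) (hM : 0 ≤ M) (t : ℕ) : 0 ≤ Dc x M t := by
  unfold Dc
  positivity

theorem Sc_maj {J M m n : ℕ} (hJ : 1 ≤ J) (hM : 1 ≤ M) (h : ℝ → ℝ) (b : ℤ × ℤ → ℂ) (hb : ∀ k, ‖b k‖ ≤ 1) (R α : ℝ) (c : ℝ × ℝ) :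
    ‖Sc h (blk n) b R α c‖ ^ (2 * J) ≤ Maj J M m h n b R α := by
  have hMp : (1 : ℝ) ≤ (M : ℝ) := by exact_mod_cast hM
  have hJp : (1 : ℝ) ≤ (J : ℝ) := by exact_mod_cast hJ
  set f : ℤ × ℤ → ℂ := fun k => b k * ee (-(R * (nk k * gph h k α))) * ee (dt k c) with hf
  have hfn : ∀ k, ‖f k‖ ≤ 1 := by
    intro k
    rw [hf]
    simp only [norm_mul, ee_norm, mul_one]
    exact hb k
  set D : ℝ := Dc (2 ^ n) M m with hD
  have hD0 : 0 ≤ D := Dc_nonneg (by positivity) (by positivity) m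
  have h8 : 8 ≤ 8 * M ^ m := by
    have : 0 < M ^ m := pow_pos hM m
    omega
  have hDj : ∀ j, ‖∑ k ∈ arcSet (blk n) (8 * M ^ m) j, f k‖ ≤ D := by
    intro j
    refine (norm_sum_le _ _).trans ?_
    refine (Finset.sum_le_card_nsmul _ _ 1 (fun k _ => hfn k)).trans ?_
    rw [nsmul_eq_mul, mul_one]
    refine (arc_card n h8 j).trans (le_of_eq ?_)
    rw [hD]
    unfold Dc
    push_cast
    ring
  have hms := multiscale (blk n) f hM (fun _ => J) (fun _ => ⟨hJ, le_refl J⟩) hDj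
  set T : ℝ := D ^ (2 * J) + ∑ s ∈ Finset.range m, Vs J M s h n b R α with hT
  have hV0 : ∀ s, 0 ≤ Vs J M s h n b R α := fun s => Vs_nonneg _ _ _ _ _ _ _ _
  have hS0 : 0 ≤ ∑ s ∈ Finset.range m, Vs J M s h n b R α := Finset.sum_nonneg (fun s _ => hV0 s)
  have hT0 : 0 ≤ T := by positivity
  have hJ2 : (0 : ℝ) < 2 * (J : ℝ) := by linarith
  set t : ℝ := T ^ (1 / (2 * (J : ℝ))) with ht
  have ht0 : 0 ≤ t := Real.rpow_nonneg hT0 _
  have htp : t ^ (2 * J) = T := by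
    rw [ht, ← Real.rpow_natCast, ← Real.rpow_mul hT0]
    push_cast
    rw [one_div, inv_mul_cancel₀ hJ2.ne', Real.rpow_one]
  have hDt : D ≤ t := by
    have h1 : D ^ (2 * J) ≤ t ^ (2 * J) := by
      rw [htp, hT]
      linarith
    exact le_of_pow_le_pow_left₀ (by omega) ht0 h1
  have hXt : ∀ s ∈ Finset.range m, (∑ j ∈ Finset.range (8 * M ^ s), ∑ I ∈ gapT J M,
        ∏ t, ‖∑ k ∈ arcSet (blk n) (8 * M ^ (s + 1)) (M * j + I t), f k‖ ^ 2) ^ (1 / (2 * (J : ℝ))) ≤ t := by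
    intro s hs
    rw [ht]
    refine Real.rpow_le_rpow ?_ ?_ (by positivity)
    · exact Finset.sum_nonneg (fun j _ => Finset.sum_nonneg (fun I _ => Finset.prod_nonneg (fun t _ => sq_nonneg _)))
    · have h1 : (∑ j ∈ Finset.range (8 * M ^ s), ∑ I ∈ gapT J M,
          ∏ t, ‖∑ k ∈ arcSet (blk n) (8 * M ^ (s + 1)) (M * j + I t), f k‖ ^ 2) ≤ Vs J M s h n b R α := by
        unfold Vs
        refine Finset.sum_le_sum (fun j _ => Finset.sum_le_sum (fun I _ => ?_))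
        exact cs_prod h (arcs n s j I) (fun _ => b) R α c
      have h2 : Vs J M s h n b R α ≤ ∑ s ∈ Finset.range m, Vs J M s h n b R α :=
        Finset.single_le_sum (f := fun s => Vs J M s h n b R α) (fun s _ => hV0 s) hs
      have h3 : 0 ≤ D ^ (2 * J) := by positivity
      rw [hT]
      linarith
  set K : ℝ := 8 * (4 * (J : ℝ)) ^ m * (2 * M) with hK
  have hK0 : 0 ≤ K := by positivity
  have hbig : ‖Sc h (blk n) b R α c‖ ≤ Aj J M m * t := by
    have e : Sc h (blk n) b R α c = ∑ k ∈ blk n, f k := rfl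
    rw [e]
    refine hms.trans ?_
    have h1 : 8 * (4 * (J : ℝ)) ^ m * D ≤ K * t := by
      refine (mul_le_mul_of_nonneg_left hDt (by positivity)).trans (mul_le_mul_of_nonneg_right ?_ ht0)
      rw [hK]
      exact le_mul_of_one_le_right (by positivity) (by linarith)
    have h2 : ∑ s ∈ Finset.range m, 8 * (4 * (J : ℝ)) ^ s * (2 * M) *
      (∑ j ∈ Finset.range (8 * M ^ s), ∑ I ∈ gapT J M,
        ∏ t, ‖∑ k ∈ arcSet (blk n) (8 * M ^ (s + 1)) (M * j + I t), f k‖ ^ 2) ^ (1 / (2 * (J : ℝ))) ≤ m * (K * t) := by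
      have h3 : ∀ s ∈ Finset.range m, 8 * (4 * (J : ℝ)) ^ s * (2 * M) *
        (∑ j ∈ Finset.range (8 * M ^ s), ∑ I ∈ gapT J M,
        ∏ t, ‖∑ k ∈ arcSet (blk n) (8 * M ^ (s + 1)) (M * j + I t), f k‖ ^ 2) ^ (1 / (2 * (J : ℝ))) ≤ K * t := by
        intro s hs
        refine (mul_le_mul_of_nonneg_left (hXt s hs) (by positivity)).trans (mul_le_mul_of_nonneg_right ?_ ht0)
        rw [hK]
        have h4 : (4 * (J : ℝ)) ^ s ≤ (4 * (J : ℝ)) ^ m :=
          pow_le_pow_right₀ (by linarith) (Finset.mem_range.1 hs).le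
        have h5 := mul_le_mul_of_nonneg_right h4 (by positivity : (0 : ℝ) ≤ 8 * (2 * M))
        nlinarith [h5]
      refine (Finset.sum_le_card_nsmul _ _ _ h3).trans (le_of_eq ?_)
      rw [Finset.card_range, nsmul_eq_mul]
    have h6 : Aj J M m * t = K * t + m * (K * t) := by
      unfold Aj
      rw [hK]
      ring
    rw [h6]
    exact add_le_add h1 h2
  calc ‖Sc h (blk n) b R α c‖ ^ (2 * J) ≤ (Aj J M m * t) ^ (2 * J) := pow_le_pow_left₀ (norm_nonneg _) hbig _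
    _ = Maj J M m h n b R α := by
      rw [mul_pow, htp]
      rfl

end Pool.Agent.Helper96.MM
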